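import Pool.Agent.Helper69.RF.Bas

/-! # Project RF (MP_e74dc5_nt), module UNT -/

set_option autoImplicit false

namespace Pool.Agent.Helper78.RF

open Pool.Agent.Helper69.RF Helper62.Weber Polynomial

/-- clearing denominators in a Bezout identity -/
theorem exists_res (P Q : ℤ[X])
    (h : IsCoprime (P.map (Int.castRingHom ℚ)) (Q.map (Int.castRingHom ℚ))) :
    ∃ (U V : ℤ[X]) (r : ℤ), r ≠ 0 ∧ U * P + V * Q = C r := by
  obtain ⟨a, b, hab⟩ := h
  obtain ⟨da, hda, ha⟩ := IsLocalization.integerNormalization_spec (nonZeroDivisors ℤ) a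
  obtain ⟨db, hdb, hb⟩ := IsLocalization.integerNormalization_spec (nonZeroDivisors ℤ) b
  set A := IsLocalization.integerNormalization (nonZeroDivisors ℤ) a with hA
  set B := IsLocalization.integerNormalization (nonZeroDivisors ℤ) b with hB
  have ha' : A.map (Int.castRingHom ℚ) = C (da : ℚ) * a := by
    have h1 : A.map (Int.castRingHom ℚ) = da • a := ha
    rw [h1]
    ext i
    rw [coeff_smul, coeff_C_mul]
    rw [zsmul_eq_mul]
  have hb' : B.map (Int.castRingHom ℚ) = C (db : ℚ) * b := by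
    have h1 : B.map (Int.castRingHom ℚ) = db • b := hb
    rw [h1]
    ext i
    rw [coeff_smul, coeff_C_mul]
    rw [zsmul_eq_mul]
  refine ⟨C db * A, C da * B, da * db, mul_ne_zero (nonZeroDivisors.ne_zero hda)
    (nonZeroDivisors.ne_zero hdb), ?_⟩
  apply Polynomial.map_injective (Int.castRingHom ℚ) Int.cast_injective
  rw [Polynomial.map_add, Polynomial.map_mul, Polynomial.map_mul, Polynomial.map_mul,
    Polynomial.map_mul, Polynomial.map_C, Polynomial.map_C, Polynomial.map_C, ha', hb']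
  simp only [eq_intCast, map_mul]
  linear_combination (C (da : ℚ) * C (db : ℚ)) * hab

/-- the first odd coefficient -/
theorem exists_split (P : ℤ[X]) (hP : P.IsPrimitive) :
    ∃ (s : ℕ) (A B : ℤ[X]), P = C 2 * A + X ^ s * B ∧ ¬ (2 : ℤ) ∣ B.coeff 0 := by
  have hex : ∃ i, ¬ (2 : ℤ) ∣ P.coeff i := by
    by_contra hcon
    push Not at hcon
    have h1 : C (2 : ℤ) ∣ P := (C_dvd_iff_dvd_coeff _ _).2 hcon
    have h2 := hP 2 h1
    exact absurd h2 (by decide)
  classical
  obtain ⟨s, hs, hlt⟩ : ∃ s, ¬ (2 : ℤ) ∣ P.coeff s ∧ ∀ i < s, (2 : ℤ) ∣ P.coeff i :=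
    ⟨Nat.find hex, Nat.find_spec hex, fun i hi => not_not.1 (Nat.find_min hex hi)⟩
  have hm : (X ^ s : ℤ[X]).Monic := monic_X_pow s
  have hdec := modByMonic_add_div P (X ^ s : ℤ[X])
  have hdeg : (P %ₘ (X ^ s)).degree < s := by
    have := degree_modByMonic_lt P hm
    rwa [degree_X_pow] at this
  have hR : C (2 : ℤ) ∣ P %ₘ (X ^ s) := by
    rw [C_dvd_iff_dvd_coeff]
    intro i
    by_cases hi : i < s
    · have h1 := congrArg (fun p : ℤ[X] => p.coeff i) hdec
      simp only [coeff_add] at h1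
      rw [coeff_X_pow_mul', if_neg (by omega), add_zero] at h1
      rw [h1]
      exact hlt i hi
    · rw [coeff_eq_zero_of_degree_lt (lt_of_lt_of_le hdeg (by exact_mod_cast not_lt.1 hi))]
      exact dvd_zero _
  obtain ⟨A, hA⟩ := hR
  refine ⟨s, A, P /ₘ (X ^ s), ?_, ?_⟩
  · rw [← hA, hdec]
  · have h1 := congrArg (fun p : ℤ[X] => p.coeff s) hdec
    simp only [coeff_add] at h1
    rw [coeff_X_pow_mul', if_pos le_rfl, Nat.sub_self,
      coeff_eq_zero_of_degree_lt hdeg, zero_add] at h1
    rw [h1]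
    exact hs

/-- the orbit of `y ↦ y ^ 2 - 2` in a field of characteristic not `2` -/
theorem orbit_inj {k : Type*} [Field k] (h2 : (2 : k) ≠ 0) (y : ℕ → k) (n : ℕ)
    (hy : ∀ i < n, y (i + 1) = y i ^ 2 - 2) (hn : y n = 0) :
    ∀ i j, i < j → j ≤ n → y i ≠ y j := by
  -- after a zero the values are `-2, 2`
  have key : ∀ m, m < n → y m = 0 → ∀ t, 1 ≤ t → m + t ≤ n → y (m + t) = -2 ∨ y (m + t) = 2 := by
    intro m hm h0 t
    induction t with
    | zero => intro h; omega
    | succ t ih =>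
      intro _ hle
      rcases Nat.eq_zero_or_pos t with ht | ht
      · subst ht
        left
        rw [hy m hm, h0]
        ring
      · have h1 := ih ht (by omega)
        right
        rw [show m + (t + 1) = (m + t) + 1 by omega, hy (m + t) (by omega)]
        rcases h1 with h1 | h1 <;> rw [h1] <;> ring
  have sh : ∀ i j, i < j → j ≤ n → y i = y j → ∀ t, j + t ≤ n → y (i + t) = y (j + t) := by
    intro i j hij hj he t
    induction t with
    | zero => intro _; exact he
    | succ t ih =>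
      intro hle
      rw [← add_assoc, ← add_assoc, hy (i + t) (by omega), hy (j + t) (by omega), ih (by omega)]
  intro i j hij hj he
  have h1 := sh i j hij hj he (n - j) (by omega)
  rw [show j + (n - j) = n by omega, hn] at h1
  have h3 := key (i + (n - j)) (by omega) h1 (j - i) (by omega) (by omega)
  rw [show i + (n - j) + (j - i) = n by omega, hn] at h3
  rcases h3 with h3 | h3
  · apply h2
    linear_combination h3
  · exact h2 h3.symm

/-- the number of the elements of `F_l[y]` -/
theorem card_le {k : Type*} [Field k] (l : ℕ) [Fact l.Prime] [Algebra (ZMod l) k] (p : (ZMod l)[X])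
    (hp : p ≠ 0) (y : ℕ → k) (n : ℕ) (hy : ∀ i < n, y (i + 1) = y i ^ 2 - 2)
    (h0 : aeval (y 0) p = 0) (hinj : ∀ i j, i < j → j ≤ n → y i ≠ y j) :
    n + 1 ≤ l ^ p.natDegree := by
  have hint : IsIntegral (ZMod l) (y 0) := by
    rw [← isAlgebraic_iff_isIntegral]
    exact ⟨p, hp, h0⟩
  have hmem : ∀ i ≤ n, y i ∈ IntermediateField.adjoin (ZMod l) {y 0} := by
    intro i
    induction i with
    | zero => intro _; exact IntermediateField.mem_adjoin_simple_self (ZMod l) (y 0)
    | succ i ih =>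
      intro hi
      rw [hy i (by omega)]
      exact sub_mem (pow_mem (ih (by omega)) 2) (by
        have : (2 : k) = ((2 : ℕ) : k) := by norm_num
        rw [this]
        exact natCast_mem _ 2)
  haveI := IntermediateField.adjoin.finiteDimensional hint
  have hcard : Nat.card (IntermediateField.adjoin (ZMod l) {y 0}) = l ^ (minpoly (ZMod l) (y 0)).natDegree := by
    rw [Module.natCard_eq_pow_finrank (K := ZMod l), IntermediateField.adjoin.finrank hint,
      Nat.card_zmod]
  have hfin : Finite (IntermediateField.adjoin (ZMod l) {y 0}) :=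
    Module.finite_of_finite (ZMod l)
  let f : Fin (n + 1) → IntermediateField.adjoin (ZMod l) {y 0} :=
    fun i => ⟨y i, hmem i (by omega)⟩
  have hf : Function.Injective f := by
    intro i j hij
    have h1 : y i = y j := congrArg Subtype.val hij
    by_contra hne
    rcases lt_or_gt_of_ne (fun h => hne (Fin.ext h) : (i : ℕ) ≠ j) with h | h
    · exact hinj _ _ h (by omega) h1
    · exact hinj _ _ h (by omega) h1.symm
  have h1 := Nat.card_le_card_of_injective f hf
  rw [Nat.card_eq_fintype_card, Fintype.card_fin, hcard] at h1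
  refine h1.trans (Nat.pow_le_pow_right (Fact.out : l.Prime).pos ?_)
  exact natDegree_le_of_dvd (minpoly.dvd _ _ h0) hp

/-- the main step: `α` is a unit of the ring of real algebraic integers -/
theorem unit_step (n s : ℕ) (hn : 1 ≤ n) (P U V A B : ℤ[X]) (r : ℤ) (hr : r ≠ 0)
    (hP : P.IsPrimitive)
    (hUV : U * P + V * P.comp (-X) = C r) (hB : ¬ (2 : ℤ) ∣ B.coeff 0)
    (x : integralClosure ℤ ℝ) (hx : (x : ℝ) = XR n) (v γ q : integralClosure ℤ ℝ)
    (hv : x ^ 2 ^ n = 2 * v) (hα : aeval x P = x ^ s * (aeval x B + x * γ * aeval x A))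
    (hq : aeval (-x) P = q * aeval x P) (hbig : r.natAbs ^ P.natDegree < n + 1) :
    IsUnit (aeval x B + x * γ * aeval x A) := by
  by_contra hnu
  obtain ⟨M, hM, hmem⟩ := exists_max_ideal_of_mem_nonunits hnu
  letI : Field (integralClosure ℤ ℝ ⧸ M) := Ideal.Quotient.field M
  have hPx : aeval x P ∈ M := by
    rw [hα]
    exact M.mul_mem_left _ hmem
  have hPnx : aeval (-x) P ∈ M := by
    rw [hq]
    exact M.mul_mem_left _ hPx
  have hrM : ((r : ℤ) : integralClosure ℤ ℝ) ∈ M := by
    have h1 := congrArg (fun p : ℤ[X] => aeval x p) hUV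
    simp only [map_add, map_mul, aeval_C, aeval_comp, map_neg, aeval_X] at h1
    have h2 : algebraMap ℤ (integralClosure ℤ ℝ) r = (r : integralClosure ℤ ℝ) := by
      simp
    rw [h2] at h1
    rw [← h1]
    exact M.add_mem (M.mul_mem_left _ hPx) (M.mul_mem_left _ hPnx)
  set l := ringChar (integralClosure ℤ ℝ ⧸ M) with hl
  haveI hc : CharP (integralClosure ℤ ℝ ⧸ M) l := ringChar.charP _
  have hdvd : ∀ a : ℤ, ((a : ℤ) : integralClosure ℤ ℝ) ∈ M ↔ (l : ℤ) ∣ a := by
    intro a
    rw [← CharP.intCast_eq_zero_iff (integralClosure ℤ ℝ ⧸ M) l a, ← Ideal.Quotient.eq_zero_iff_mem]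
    simp
  have hlr : (l : ℤ) ∣ r := (hdvd r).1 hrM
  have hl0 : l ≠ 0 := by
    intro h0
    rw [h0] at hlr
    exact hr (by simpa using hlr)
  have hlp : l.Prime := by
    rcases CharP.char_is_prime_or_zero (integralClosure ℤ ℝ ⧸ M) l with h | h
    · exact h
    · exact absurd h hl0
  by_cases hl2 : l = 2
  · -- characteristic two
    have h2M : (2 : integralClosure ℤ ℝ) ∈ M := by
      have := (hdvd 2).2 (by rw [hl2]; norm_num)
      simpa using this
    have hxM : x ∈ M := by
      have h1 : x ^ 2 ^ n ∈ M := by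
        rw [hv]
        exact M.mul_mem_right _ h2M
      exact hM.isPrime.mem_of_pow_mem _ h1
    have hBM : aeval x B ∈ M := by
      have h1 : aeval x B = (aeval x B + x * γ * aeval x A) - x * (γ * aeval x A) := by ring
      rw [h1]
      exact M.sub_mem hmem (M.mul_mem_right _ hxM)
    have hb0 : ((B.coeff 0 : ℤ) : integralClosure ℤ ℝ) ∈ M := by
      have h1 : aeval x B = aeval x (B.divX) * x + (B.coeff 0 : integralClosure ℤ ℝ) := by
        conv_lhs => rw [← divX_mul_X_add B]
        rw [map_add, map_mul, aeval_X, aeval_C]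
        simp
      have h2 : (B.coeff 0 : integralClosure ℤ ℝ) = aeval x B - aeval x (B.divX) * x := by
        rw [h1]; ring
      rw [h2]
      exact M.sub_mem hBM (M.mul_mem_left _ hxM)
    have h3 := (hdvd _).1 hb0
    rw [hl2] at h3
    exact hB (by exact_mod_cast h3)
  · -- odd characteristic
    haveI : Fact l.Prime := ⟨hlp⟩
    letI : Algebra (ZMod l) (integralClosure ℤ ℝ ⧸ M) := ZMod.algebra _ l
    have h2 : (2 : integralClosure ℤ ℝ ⧸ M) ≠ 0 := by
      intro h
      have h1 : ((2 : ℕ) : integralClosure ℤ ℝ ⧸ M) = 0 := by exact_mod_cast h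
      rw [CharP.cast_eq_zero_iff (integralClosure ℤ ℝ ⧸ M) l 2] at h1
      exact hl2 ((Nat.prime_dvd_prime_iff_eq hlp Nat.prime_two).1 h1)
    let xi : ℕ → integralClosure ℤ ℝ := fun i => ⟨XR (n - i), XR_int (n - i)⟩
    let y : ℕ → integralClosure ℤ ℝ ⧸ M := fun i => Ideal.Quotient.mk M (xi i)
    have hx0 : xi 0 = x := by
      apply Subtype.ext
      rw [hx]
      rfl
    have hy : ∀ i < n, y (i + 1) = y i ^ 2 - 2 := by
      intro i hi
      have h1 : xi (i + 1) = xi i ^ 2 - 2 := by
        apply Subtype.ext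
        have h3 := XR_pred (n := n - i) (by omega)
        have h4 : n - (i + 1) = n - i - 1 := by omega
        change XR (n - (i + 1)) = XR (n - i) ^ 2 - 2
        rw [h4, h3]
      have h5 : Ideal.Quotient.mk M (2 : integralClosure ℤ ℝ) = 2 := rfl
      change Ideal.Quotient.mk M (xi (i + 1)) = Ideal.Quotient.mk M (xi i) ^ 2 - 2
      rw [h1, map_sub, map_pow, h5]
    have hyn : y n = 0 := by
      have h1 : xi n = 0 := by
        apply Subtype.ext
        change XR (n - n) = 0
        rw [Nat.sub_self, XR_zero]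
      change Ideal.Quotient.mk M (xi n) = 0
      rw [h1, map_zero]
    have hinj := orbit_inj h2 y n hy hyn
    have hp : P.map (Int.castRingHom (ZMod l)) ≠ 0 := by
      intro h
      have h1 : C (l : ℤ) ∣ P := by
        rw [C_dvd_iff_dvd_coeff]
        intro i
        have h3 := congrArg (fun p : (ZMod l)[X] => p.coeff i) h
        simp only [coeff_map, eq_intCast, coeff_zero] at h3
        exact (ZMod.intCast_zmod_eq_zero_iff_dvd _ _).1 h3
      have h3 := hP _ h1
      rw [Int.isUnit_iff] at h3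
      have := hlp.two_le
      omega
    have hroot : aeval (y 0) (P.map (Int.castRingHom (ZMod l))) = 0 := by
      have h1 : Ideal.Quotient.mk M (aeval x P) = 0 := Ideal.Quotient.eq_zero_iff_mem.2 hPx
      have h3 : aeval (y 0) (P.map (Int.castRingHom (ZMod l))) = Ideal.Quotient.mk M (aeval x P) := by
        change aeval (Ideal.Quotient.mk M (xi 0)) (P.map (Int.castRingHom (ZMod l))) = _
        rw [hx0, aeval_def, eval₂_map, aeval_def, hom_eval₂]
        congr 1
        exact RingHom.ext_int _ _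
      rw [h3, h1]
    have h3 := card_le l _ hp y n hy hroot hinj
    have h4 : l ≤ r.natAbs := Nat.le_of_dvd (Int.natAbs_pos.2 hr) (Int.natCast_dvd.1 hlr)
    have h5 : l ^ (P.map (Int.castRingHom (ZMod l))).natDegree ≤ l ^ P.natDegree :=
      Nat.pow_le_pow_right hlp.pos natDegree_map_le
    have h6 : l ^ P.natDegree ≤ r.natAbs ^ P.natDegree := Nat.pow_le_pow_left h4 _
    omega

theorem cUNT : UNT := by
  intro hASC P hP hcop
  obtain ⟨U, V, r, hr, hUV⟩ := exists_res P (P.comp (-X)) hcop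
  obtain ⟨s, A, B, hdec, hB⟩ := exists_split P hP
  refine ⟨s, r.natAbs ^ (P.natDegree + 1) + s + 2, ?_⟩
  intro n hn hP1 _ hint
  have hn1 : 1 ≤ n := by omega
  have hns : s + 1 ≤ 2 ^ n := by
    have := Nat.lt_two_pow_self (n := n)
    omega
  obtain ⟨⟨v, w, hv, hw, hv2, hw2⟩, -⟩ := hASC n hn1
  have hadj : ∀ z ∈ Algebra.adjoin ℤ {XR n}, IsIntegral ℤ z := by
    intro z hz
    have h1 : Algebra.adjoin ℤ {XR n} ≤ integralClosure ℤ ℝ := by
      rw [Algebra.adjoin_le_iff]
      intro y hy
      rw [Set.mem_singleton_iff.1 hy]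
      exact XR_int n
    exact h1 hz
  have hxne : XR n ≠ 0 := (XR_pos hn1).ne'
  let x : integralClosure ℤ ℝ := ⟨XR n, XR_int n⟩
  let v' : integralClosure ℤ ℝ := ⟨v, hadj v hv⟩
  let w' : integralClosure ℤ ℝ := ⟨w, hadj w hw⟩
  let q : integralClosure ℤ ℝ := ⟨aeval (-XR n) P / aeval (XR n) P, hint⟩
  have hco : ∀ (t : integralClosure ℤ ℝ) (p : ℤ[X]), ((aeval t p : integralClosure ℤ ℝ) : ℝ) = aeval (t : ℝ) p :=
    fun t p => (aeval_algHom_apply (integralClosure ℤ ℝ).val t p).symm
  have hα : aeval x P = x ^ s * (aeval x B + x * (x ^ (2 ^ n - s - 1) * w') * aeval x A) := by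
    have h1 : (2 : integralClosure ℤ ℝ) = x ^ 2 ^ n * w' := Subtype.ext hw2
    have h2 : aeval x P = 2 * aeval x A + x ^ s * aeval x B := by
      conv_lhs => rw [hdec]
      rw [map_add, map_mul, map_mul, map_pow, aeval_X, aeval_C]
      simp
    have h3 : x ^ 2 ^ n = x ^ s * x * x ^ (2 ^ n - s - 1) := by
      rw [← pow_succ, ← pow_add]
      congr 1
      omega
    rw [h2]
    conv_lhs => rw [h1, h3]
    ring
  have hq : aeval (-x) P = q * aeval x P := by
    apply Subtype.ext
    have h1 := hco (-x) P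
    have h2 := hco x P
    rw [h1]
    change aeval (-XR n) P = aeval (-XR n) P / aeval (XR n) P * ((aeval x P : integralClosure ℤ ℝ) : ℝ)
    rw [h2]
    change aeval (-XR n) P = aeval (-XR n) P / aeval (XR n) P * aeval (XR n) P
    rw [div_mul_cancel₀ _ hP1]
  have hbig : r.natAbs ^ P.natDegree < n + 1 := by
    have h1 : r.natAbs ^ P.natDegree ≤ r.natAbs ^ (P.natDegree + 1) :=
      Nat.pow_le_pow_right (Int.natAbs_pos.2 hr) (Nat.le_succ _)
    omega
  have hu := unit_step n s hn1 P U V A B r hr hP hUV hB x rfl v' (x ^ (2 ^ n - s - 1) * w') q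
    (Subtype.ext hv2) hα hq hbig
  obtain ⟨α, β, hαβ, hβα, hαe⟩ : ∃ α β : integralClosure ℤ ℝ, α * β = 1 ∧ β * α = 1 ∧
      aeval x P = x ^ s * α := by
    obtain ⟨u, hu⟩ := hu
    refine ⟨u, ((u⁻¹ : (integralClosure ℤ ℝ)ˣ) : integralClosure ℤ ℝ), u.mul_inv, u.inv_mul, ?_⟩
    rw [hu]
    exact hα
  have hPr : aeval (XR n) P = XR n ^ s * (α : ℝ) := by
    have h1 := hco x P
    have h2 := congrArg Subtype.val hαe
    change ((aeval x P : integralClosure ℤ ℝ) : ℝ) = XR n ^ s * (α : ℝ) at h2
    rw [← h2, h1]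
  have hab : (α : ℝ) * (β : ℝ) = 1 := congrArg Subtype.val hαβ
  have hα0 : (α : ℝ) ≠ 0 := left_ne_zero_of_mul_eq_one hab
  have hpow : XR n ^ s ≠ 0 := pow_ne_zero _ hxne
  constructor
  · rw [hPr, mul_div_cancel_left₀ _ hpow]
    exact α.2
  · have h1 : XR n ^ s / aeval (XR n) P = (β : ℝ) := by
      rw [hPr, div_eq_iff (mul_ne_zero hpow hα0)]
      linear_combination (-XR n ^ s) * hab
    rw [h1]
    exact β.2

end Pool.Agent.Helper78.RF
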